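import Pool.Agent.R3B.StmtsL

/-!
# Squad R3B, row LIP: the shifted solution (MP_be01ff_an)
-/

set_option autoImplicit false

namespace Pool.Agent.R3B.H32

open Set Filter Topology MeasureTheory
open Pool.Agent.Helper39_Wave (phi)
open Pool.Agent.Helper72_Shell (CharSol En psi fold bw)
open Pool.Agent.R3B

variable {κ α ℓ b0 : ℝ} {b : ℝ → ℝ} {P : ℝ → ℝ → ℝ}

/-- Comparison with the shifted solution. -/
theorem shift_le (hCMP : CmpStmt) (h : CharSol κ α ℓ b0 b P) (δ D : ℝ) (hδ : 0 ≤ δ)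
    (hD : ∀ y, |P δ (y + δ) - P 0 y| ≤ D) (t y : ℝ) (ht : 0 ≤ t) :
    |P (t + δ) (y + δ) - P t y| ≤ D := by
  have hc : Continuous fun x => κ * b x := continuous_const.mul h.bcont
  have key := hCMP α ℓ 0 D (fun x => κ * b x) (fun x => κ * b x)
    (fun t y => P (max t 0 + δ) (y + δ)) P h.apos h.lpos le_rfl hc hc
    (fun x => mul_nonneg h.kpos.le (h.bnn x))
    (h.cont.comp (f := fun z : ℝ × ℝ => (max z.1 0 + δ, z.2 + δ)) (by fun_prop))
    h.cont ?_ h.per ?_ ?_ ?_ ?_ t y ht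
  · simp only [max_eq_left ht, zero_mul, add_zero] at key
    exact key
  · intro t y
    have e : y + 2 * ℓ + δ = y + δ + 2 * ℓ := by ring
    show P (max t 0 + δ) (y + 2 * ℓ + δ) = P (max t 0 + δ) (y + δ)
    rw [e, h.per]
  · intro t1 t2 y h1 h2
    have h2' : 0 ≤ t2 := h1.trans h2
    show P (max t2 0 + δ) (y + δ) - P (max t1 0 + δ) (y + δ) =
      -∫ s in t1..t2, κ * b (y - s) *
        phi α (P (max s 0 + δ) (y + δ) - P (max s 0 + δ) (2 * s - y + δ))
    rw [max_eq_left h1, max_eq_left h2', h.ode (t1 + δ) (t2 + δ) (y + δ) (by linarith)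
      (by linarith), ← intervalIntegral.integral_comp_add_right
        (fun s => b (y + δ - s) * phi α (P s (y + δ) - P s (2 * s - (y + δ)))) δ,
      neg_mul, ← intervalIntegral.integral_const_mul]
    congr 1
    refine intervalIntegral.integral_congr fun s hs => ?_
    rw [uIcc_of_le h2] at hs
    have hs0 : 0 ≤ s := h1.trans hs.1
    have e1 : y + δ - (s + δ) = y - s := by ring
    have e2 : 2 * (s + δ) - (y + δ) = 2 * s - y + δ := by ring
    show κ * (b (y + δ - (s + δ)) * phi α (P (s + δ) (y + δ) - P (s + δ) (2 * (s + δ) - (y + δ)))) =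
      κ * b (y - s) * phi α (P (max s 0 + δ) (y + δ) - P (max s 0 + δ) (2 * s - y + δ))
    rw [max_eq_left hs0, e1, e2, mul_assoc]
  · intro t1 t2 y h1 h2
    show P t2 y - P t1 y = -∫ s in t1..t2, κ * b (y - s) * phi α (P s y - P s (2 * s - y))
    rw [h.ode t1 t2 y h1 h2, neg_mul, ← intervalIntegral.integral_const_mul]
    congr 1
    refine intervalIntegral.integral_congr fun s _ => ?_
    show κ * (b (y - s) * phi α (P s y - P s (2 * s - y))) =
      κ * b (y - s) * phi α (P s y - P s (2 * s - y))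
    rw [mul_assoc]
  · intro y
    show |P (max 0 0 + δ) (y + δ) - P 0 y| ≤ D
    rw [max_self, zero_add]
    exact hD y
  · intro t y _
    simp

/-- The initial step. -/
theorem start_le (h : CharSol κ α ℓ b0 b P) (h0 : ∀ y, P 0 y = Real.cos (Real.pi / ℓ * y))
    (η : ℝ) (hη : 0 < η) : ∃ δ0 : ℝ, 0 < δ0 ∧ ∀ δ, 0 ≤ δ → δ ≤ δ0 → ∀ y,
    |P δ (y + δ) - P 0 y| ≤ (Real.pi / ℓ + η) * δ := by
  set G : ℝ → ℝ → ℝ := fun s z => κ * (b (z - s) * phi α (P s z - P s (2 * s - z))) with hG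
  have hGc : Continuous (fun z : ℝ × ℝ => G z.1 z.2) := continuous_const.mul h.contf
  have hG0 : ∀ z, G 0 z = 0 := by
    intro z
    have e : P 0 z - P 0 (2 * 0 - z) = 0 := by
      rw [h0, h0]
      have e1 : Real.pi / ℓ * (2 * 0 - z) = -(Real.pi / ℓ * z) := by ring
      rw [e1, Real.cos_neg, sub_self]
    show κ * (b (z - 0) * phi α (P 0 z - P 0 (2 * 0 - z))) = 0
    rw [e, Pool.Agent.Helper39_Wave.phi_zero, mul_zero, mul_zero]
  have hGp : ∀ s, Function.Periodic (G s) (2 * ℓ) := by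
    intro s z
    show κ * (b (z + 2 * ℓ - s) * phi α (P s (z + 2 * ℓ) - P s (2 * s - (z + 2 * ℓ)))) =
      κ * (b (z - s) * phi α (P s z - P s (2 * s - z)))
    have e1 : z + 2 * ℓ - s = z - s + 2 * ℓ := by ring
    have e2 : P s (2 * s - (z + 2 * ℓ)) = P s (2 * s - z) := by
      rw [← h.per s (2 * s - (z + 2 * ℓ))]
      congr 1
      ring
    rw [e1, h.bper, h.per, e2]
  have hev : ∀ᶠ s in 𝓝 (0 : ℝ), ∀ z ∈ Icc (0 : ℝ) (2 * ℓ), |G s z| < η := by
    refine isCompact_Icc.eventually_forall_of_forall_eventually fun z _ => ?_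
    have h1 : Tendsto (fun p : ℝ × ℝ => |G p.1 p.2|) (𝓝 (0, z)) (𝓝 |G 0 z|) :=
      (hGc.abs).tendsto (0, z)
    rw [hG0, abs_zero] at h1
    exact h1.eventually (gt_mem_nhds hη)
  obtain ⟨δ1, hδ1, hδ2⟩ := Metric.eventually_nhds_iff.1 hev
  refine ⟨δ1 / 2, by linarith, ?_⟩
  intro δ hδ hδ3 y
  have hGb : ∀ s, 0 ≤ s → s ≤ δ → ∀ z, |G s z| ≤ η := by
    intro s hs1 hs2 z
    obtain ⟨z', hz', hzz⟩ := (hGp s).exists_mem_Ico₀ (by linarith [h.lpos]) z
    rw [hzz]
    have hd : dist s 0 < δ1 := by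
      rw [Real.dist_eq, sub_zero, abs_of_nonneg hs1]
      linarith
    exact (hδ2 hd z' ⟨hz'.1, hz'.2.le⟩).le
  have e1 : |P δ (y + δ) - P 0 (y + δ)| ≤ η * δ := by
    rw [h.ode 0 δ (y + δ) le_rfl hδ, neg_mul, abs_neg, ← intervalIntegral.integral_const_mul]
    have h1 := intervalIntegral.norm_integral_le_of_norm_le_const (a := 0) (b := δ) (C := η)
      (f := fun s => G s (y + δ)) (by
        intro s hs
        rw [uIoc_of_le hδ] at hs
        rw [Real.norm_eq_abs]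
        exact hGb s hs.1.le hs.2 _)
    rw [Real.norm_eq_abs, sub_zero, abs_of_nonneg hδ] at h1
    exact h1
  have e2 : |P 0 (y + δ) - P 0 y| ≤ Real.pi / ℓ * δ := by
    rw [h0, h0]
    refine (Real.abs_cos_sub_cos_le _ _).trans ?_
    have e3 : Real.pi / ℓ * (y + δ) - Real.pi / ℓ * y = Real.pi / ℓ * δ := by ring
    rw [e3, abs_of_nonneg (mul_nonneg (div_nonneg Real.pi_pos.le h.lpos.le) hδ)]
  calc |P δ (y + δ) - P 0 y| = |(P δ (y + δ) - P 0 (y + δ)) + (P 0 (y + δ) - P 0 y)| := by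
        congr 1
        ring
    _ ≤ |P δ (y + δ) - P 0 (y + δ)| + |P 0 (y + δ) - P 0 y| := abs_add_le _ _
    _ ≤ η * δ + Real.pi / ℓ * δ := add_le_add e1 e2
    _ = (Real.pi / ℓ + η) * δ := by ring

theorem lip (hCMP : CmpStmt) : LipStmt := by
  intro κ α ℓ b0 b P h h0 t h' y ht hh
  refine le_of_forall_pos_le_add fun ε hε => ?_
  set η : ℝ := ε / (h' + 1) with hη
  have hη0 : 0 < η := div_pos hε (by linarith)
  obtain ⟨δ0, hδ0, hst⟩ := start_le h h0 η hη0
  obtain ⟨m, hm⟩ := exists_nat_gt (h' / δ0)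
  have hm0 : (0 : ℝ) < m := lt_of_le_of_lt (div_nonneg hh hδ0.le) hm
  set δ : ℝ := h' / m with hδ
  have hδn : 0 ≤ δ := div_nonneg hh hm0.le
  have hδ1 : δ ≤ δ0 := by
    rw [hδ, div_le_iff₀ hm0]
    rw [div_lt_iff₀ hδ0] at hm
    linarith
  have hstep : ∀ t y, 0 ≤ t → |P (t + δ) (y + δ) - P t y| ≤ (Real.pi / ℓ + η) * δ := fun t y ht =>
    shift_le hCMP h δ _ hδn (hst δ hδn hδ1) t y ht
  have hind : ∀ j : ℕ, |P (t + j * δ) (y + j * δ) - P t y| ≤ j * ((Real.pi / ℓ + η) * δ) := by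
    intro j
    induction j with
    | zero => simp
    | succ j ih =>
      have h1 := hstep (t + j * δ) (y + j * δ) (by positivity)
      have e1 : t + ((j + 1 : ℕ) : ℝ) * δ = t + j * δ + δ := by push_cast; ring
      have e2 : y + ((j + 1 : ℕ) : ℝ) * δ = y + j * δ + δ := by push_cast; ring
      rw [e1, e2]
      calc |P (t + j * δ + δ) (y + j * δ + δ) - P t y| =
          |(P (t + j * δ + δ) (y + j * δ + δ) - P (t + j * δ) (y + j * δ)) +
            (P (t + j * δ) (y + j * δ) - P t y)| := by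
            congr 1
            ring
        _ ≤ _ := abs_add_le _ _
        _ ≤ (Real.pi / ℓ + η) * δ + j * ((Real.pi / ℓ + η) * δ) := add_le_add h1 ih
        _ = ((j + 1 : ℕ) : ℝ) * ((Real.pi / ℓ + η) * δ) := by push_cast; ring
  have hmain := hind m
  have hmδ : (m : ℝ) * δ = h' := by
    rw [hδ]
    field_simp
  rw [hmδ] at hmain
  have e3 : (m : ℝ) * ((Real.pi / ℓ + η) * δ) = Real.pi / ℓ * h' + η * h' := by
    rw [← hmδ]
    ring
  rw [e3] at hmain
  have e4 : η * h' ≤ ε := by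
    rw [hη, div_mul_eq_mul_div, div_le_iff₀ (by linarith)]
    nlinarith
  linarith

end Pool.Agent.R3B.H32
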